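import Pool.Agent.Helper73.SM.Goals

/-!
# Project SM (MP_c307ca_nt), packet INT: integrality of `k ^ (2 j) (a / k choose j)`
-/

set_option autoImplicit false

namespace Pool.Agent.Helper28.SM

open Finset Pool.Agent.Helper73.SM

/-- a power of a prime dividing `j!` has exponent at most `j` -/
theorem exp_le {l v j : ℕ} (hl : l.Prime) (h : l ^ v ∣ j.factorial) : v ≤ j := by
  have := Fact.mk hl
  have h1 : v ≤ padicValNat l j.factorial :=
    (padicValNat_dvd_iff_le (Nat.factorial_ne_zero j)).1 h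
  have h2 := sub_one_mul_padicValNat_factorial (p := l) j
  have h3 : 1 ≤ l - 1 := by have := hl.two_le; omega
  calc v ≤ padicValNat l j.factorial := h1
    _ = 1 * padicValNat l j.factorial := (one_mul _).symm
    _ ≤ (l - 1) * padicValNat l j.factorial := Nat.mul_le_mul_right _ h3
    _ ≤ j := by rw [h2]; exact Nat.sub_le _ _

/-- `j!` divides the falling factorial of an integer -/
theorem fact_dvd (b : ℤ) (j : ℕ) : (j.factorial : ℤ) ∣ ∏ i ∈ range j, (b - i) := by
  have h := Nat.factorial_coe_dvd_prod j (-b)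
  have e : ∏ i ∈ range j, (b - i) = (-1) ^ j * ∏ i ∈ range j, (-b + (i : ℤ)) := by
    rw [← Finset.card_range j, ← Finset.prod_const, Finset.card_range, ← Finset.prod_mul_distrib]
    refine Finset.prod_congr rfl fun i _ => ?_
    ring
  rw [e]
  exact Dvd.dvd.mul_left h _

/-- **Packet INT** -/
theorem goalINT : StmtINT := by
  intro a k j
  rw [← Int.natAbs_dvd_natAbs, Int.natAbs_natCast, Nat.dvd_iff_prime_pow_dvd_dvd]
  intro l v hl hlv
  rw [← Int.natCast_dvd_natCast, Int.dvd_natAbs]
  have hlv' : ((l ^ v : ℕ) : ℤ) ∣ (j.factorial : ℤ) := Int.natCast_dvd_natCast.2 hlv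
  by_cases hk : (l : ℤ) ∣ k
  · refine Dvd.dvd.mul_right ?_ _
    rw [Nat.cast_pow]
    exact (pow_dvd_pow (l : ℤ) (exp_le hl hlv)).trans (pow_dvd_pow_of_dvd hk j)
  · refine Dvd.dvd.mul_left ?_ _
    have hcop : IsCoprime k ((l ^ v : ℕ) : ℤ) := by
      rw [Nat.cast_pow]
      refine IsCoprime.pow_right ?_
      exact ((Prime.coprime_iff_not_dvd (Nat.prime_iff_prime_int.1 hl)).2 hk).symm
    obtain ⟨u, w, huw⟩ := hcop
    have h1 : ((l ^ v : ℕ) : ℤ) ∣ k ^ j * ∏ i ∈ range j, (a * u - i) :=
      Dvd.dvd.mul_left (hlv'.trans (fact_dvd _ _)) _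
    rw [← ZMod.intCast_zmod_eq_zero_iff_dvd] at h1 ⊢
    rw [← h1]
    push_cast
    have hu : (u : ZMod (l ^ v)) * k = 1 := by
      have := congrArg (fun x : ℤ => (x : ZMod (l ^ v))) huw
      push_cast at this
      have h0 : ((l : ZMod (l ^ v)) ^ v) = 0 := by
        rw [← Nat.cast_pow, ZMod.natCast_self]
      rw [h0, mul_zero, add_zero] at this
      exact this
    rw [← Finset.card_range j, ← Finset.prod_const, Finset.card_range, ← Finset.prod_mul_distrib]
    refine Finset.prod_congr rfl fun i _ => ?_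
    calc (a : ZMod (l ^ v)) - i * k = a * ((u : ZMod (l ^ v)) * k) - i * k := by rw [hu, mul_one]
      _ = k * (a * u - i) := by ring

end Pool.Agent.Helper28.SM
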